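import Pool.Agent.Lib.MP_4c42bd_gt.Core

namespace Pool.Agent.Results.MP_4c42bd_gt.CircleSymmetricTorus

open MP4c42bd
open scoped ContDiff

/-- If the reduced equations hold, then the curve is a trajectory of the magnetic flow. -/
theorem isTrajectory_of_reduced (S : TorusSystem)
    {r r' w w' a a' β : ℝ → ℝ} (hr : ∀ x, HasDerivAt r (r' x) x)
    (hw : ∀ x, HasDerivAt w (w' x) x) (ha : ∀ x, HasDerivAt a (a' x) x)
    (rpos : ∀ x, 0 < r x) (wpos : ∀ x, 0 < w x)
    (hH : ∀ x y p q, S.H x y p q = (r x * p - a x * q / r x) ^ 2 / w x ^ 2 + q ^ 2 / r x ^ 2)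
    (hb : ∀ x y, S.b x y = β x) {K : ℝ} {x θ y : ℝ → ℝ}
    (hode : ∀ t, HasDerivAt x (2 * K * r (x t) * Real.cos (θ t) / w (x t)) t ∧
        HasDerivAt y (2 * K * Real.sin (θ t) / r (x t) -
          2 * K * a (x t) * Real.cos (θ t) / (r (x t) * w (x t))) t ∧
        HasDerivAt θ (-(2 / w (x t)) * (β (x t) + K * r' (x t) * Real.sin (θ t))) t) :
    S.IsTrajectory x y
      (fun t => K * (w (x t) * Real.cos (θ t) + a (x t) * Real.sin (θ t)) / r (x t))
      (fun t => K * r (x t) * Real.sin (θ t)) := by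
  intro t
  obtain ⟨h1, h2, h3⟩ := hode t
  have er := (rpos (x t)).ne'
  have ew := (wpos (x t)).ne'
  set c := Real.cos (θ t) with hc
  set s := Real.sin (θ t) with hs
  -- the partial derivatives of `H`
  have dp : ∀ X Y P Q, deriv (fun u => S.H X Y u Q) P = 2 * (r X * P - a X * Q / r X) * r X / w X ^ 2 := by
    intro X Y P Q
    have e1 : (fun u => S.H X Y u Q) =
        fun u => (r X * u - a X * Q / r X) ^ 2 / w X ^ 2 + Q ^ 2 / r X ^ 2 := by
      funext u; rw [hH]
    rw [e1]
    have d1 : HasDerivAt (fun u => r X * u - a X * Q / r X) (r X) P := by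
      simpa using ((hasDerivAt_id P).const_mul (r X)).sub_const (a X * Q / r X)
    have d2 := ((d1.pow 2).div_const (w X ^ 2)).add_const (Q ^ 2 / r X ^ 2)
    have d3 := d2.deriv
    refine d3.trans ?_
    push_cast
    ring
  have dq : ∀ X Y P Q, deriv (fun u => S.H X Y P u) Q =
      -2 * (r X * P - a X * Q / r X) * (a X / r X) / w X ^ 2 + 2 * Q / r X ^ 2 := by
    intro X Y P Q
    have e1 : (fun u => S.H X Y P u) =
        fun u => (r X * P - a X * u / r X) ^ 2 / w X ^ 2 + u ^ 2 / r X ^ 2 := by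
      funext u; rw [hH]
    rw [e1]
    have d1 : HasDerivAt (fun u => r X * P - a X * u / r X) (-(a X / r X)) Q := by
      have := (((hasDerivAt_id Q).const_mul (a X)).div_const (r X)).const_sub (r X * P)
      refine this.congr_deriv ?_
      ring
    have d2 := ((d1.pow 2).div_const (w X ^ 2)).add (((hasDerivAt_id Q).pow 2).div_const (r X ^ 2))
    have d3 := d2.deriv
    refine d3.trans ?_
    push_cast
    simp only [id]
    ring
  have dy : ∀ X Y P Q, deriv (fun u => S.H X u P Q) Y = 0 := by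
    intro X Y P Q
    have e1 : (fun u => S.H X u P Q) =
        fun _ => (r X * P - a X * Q / r X) ^ 2 / w X ^ 2 + Q ^ 2 / r X ^ 2 := by
      funext u; rw [hH]
    rw [e1, deriv_const]
  have dx : ∀ X Y P Q, deriv (fun u => S.H u Y P Q) X =
      2 * (r X * P - a X * Q / r X) *
        (r' X * P - (a' X * Q * r X - a X * Q * r' X) / r X ^ 2) / w X ^ 2
      - (r X * P - a X * Q / r X) ^ 2 * (2 * w X * w' X) / (w X ^ 2) ^ 2
      - Q ^ 2 * (2 * r X * r' X) / (r X ^ 2) ^ 2 := by
    intro X Y P Q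
    have e1 : (fun u => S.H u Y P Q) =
        fun u => (r u * P - a u * Q / r u) ^ 2 / w u ^ 2 + Q ^ 2 / r u ^ 2 := by
      funext u; rw [hH]
    rw [e1]
    have e2 := (rpos X).ne'
    have e3 := (wpos X).ne'
    have d1 : HasDerivAt (fun u => r u * P - a u * Q / r u)
        (r' X * P - (a' X * Q * r X - a X * Q * r' X) / r X ^ 2) X :=
      ((hr X).mul_const P).sub (((ha X).mul_const Q).div (hr X) e2)
    have d2 : HasDerivAt (fun u => (r u * P - a u * Q / r u) ^ 2)
        (2 * (r X * P - a X * Q / r X) *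
          (r' X * P - (a' X * Q * r X - a X * Q * r' X) / r X ^ 2)) X := by
      refine (d1.pow 2).congr_deriv ?_
      push_cast
      ring
    have d3 : HasDerivAt (fun u => w u ^ 2) (2 * w X * w' X) X := by
      refine ((hw X).pow 2).congr_deriv ?_
      push_cast
      ring
    have d4 : HasDerivAt (fun u => r u ^ 2) (2 * r X * r' X) X := by
      refine ((hr X).pow 2).congr_deriv ?_
      push_cast
      ring
    have d5 := (d2.div d3 (pow_ne_zero 2 e3)).add
      ((hasDerivAt_const X (Q ^ 2)).div d4 (pow_ne_zero 2 e2))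
    have d6 := d5.deriv
    refine d6.trans ?_
    field_simp
    ring
  have hxr : HasDerivAt (fun t => r (x t)) (r' (x t) * (2 * K * r (x t) * c / w (x t))) t :=
    (hr (x t)).comp t h1
  have hxw : HasDerivAt (fun t => w (x t)) (w' (x t) * (2 * K * r (x t) * c / w (x t))) t :=
    (hw (x t)).comp t h1
  have hxa : HasDerivAt (fun t => a (x t)) (a' (x t) * (2 * K * r (x t) * c / w (x t))) t :=
    (ha (x t)).comp t h1
  have hct : HasDerivAt (fun t => Real.cos (θ t))
      (-s * (-(2 / w (x t)) * (β (x t) + K * r' (x t) * s))) t :=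
    (Real.hasDerivAt_cos (θ t)).comp t h3
  have hst : HasDerivAt (fun t => Real.sin (θ t))
      (c * (-(2 / w (x t)) * (β (x t) + K * r' (x t) * s))) t :=
    (Real.hasDerivAt_sin (θ t)).comp t h3
  refine ⟨?_, ?_, ?_, ?_⟩
  · rw [dp]
    refine h1.congr_deriv ?_
    field_simp
    ring
  · rw [dq]
    refine h2.congr_deriv ?_
    field_simp
    ring
  · rw [dx, dq, hb]
    have d := (((hxw.mul hct).add (hxa.mul hst)).const_mul K).div hxr er
    refine d.congr_deriv ?_
    simp only [Pi.add_apply, Pi.mul_apply, ← hc, ← hs]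
    field_simp
    ring
  · rw [dy, dp, hb]
    have d := (hxr.const_mul K).mul hst
    refine d.congr_deriv ?_
    simp only [← hc, ← hs]
    field_simp
    ring

/-- the reduced equations have a solution that is periodic modulo the angle -/
theorem exists_reduced {r r' w a β : ℝ → ℝ} (hr : ∀ x, HasDerivAt r (r' x) x)
    (hr'c : Continuous r')
    (hwc : Continuous w) (hac : Continuous a) (hβc : Continuous β)
    (rpos : ∀ x, 0 < r x) (wpos : ∀ x, 0 < w x)
    (rper : ∀ x, r (x + 1) = r x) (r'per : ∀ x, r' (x + 1) = r' x)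
    (wper : ∀ x, w (x + 1) = w x) (βper : ∀ x, β (x + 1) = β x) {K : ℝ}
    (hne : ∀ x, β x + K * r' x ≠ 0 ∧ β x - K * r' x ≠ 0) :
    ∃ x θ y : ℝ → ℝ, ∃ T > 0,
      (∀ t, HasDerivAt x (2 * K * r (x t) * Real.cos (θ t) / w (x t)) t ∧
        HasDerivAt y (2 * K * Real.sin (θ t) / r (x t) -
          2 * K * a (x t) * Real.cos (θ t) / (r (x t) * w (x t))) t ∧
        HasDerivAt θ (-(2 / w (x t)) * (β (x t) + K * r' (x t) * Real.sin (θ t))) t) ∧
      ∀ t, x (t + T) = x t ∧ y (t + T) = y t ∧ Real.cos (θ (t + T)) = Real.cos (θ t) ∧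
        Real.sin (θ (t + T)) = Real.sin (θ t) := by
  -- a critical point of `r`
  obtain ⟨x₁, -, hx₁⟩ : ∃ x ∈ Set.Ioo (0:ℝ) 1, r' x = 0 :=
    exists_hasDerivAt_eq_zero one_pos (fun x _ => (hr x).continuousAt.continuousWithinAt)
      (by have := rper 0; rw [zero_add] at this; exact this.symm) (fun x _ => hr x)
  have c1 : Continuous fun x => β x + K * r' x := by fun_prop
  have c2 : Continuous fun x => β x - K * r' x := by fun_prop
  -- constant signs
  have sgn : ∀ f : ℝ → ℝ, Continuous f → (∀ x, f x ≠ 0) → 0 < f x₁ → ∀ x, 0 < f x := by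
    intro f hf hf0 h x
    by_contra hx
    have hx' : f x < 0 := lt_of_le_of_ne (not_lt.1 hx) (hf0 x)
    obtain ⟨z, hz⟩ := mem_range_of_exists_le_of_exists_ge hf ⟨x, hx'.le⟩ ⟨x₁, h.le⟩
    exact hf0 z hz
  rcases lt_or_gt_of_ne (show β x₁ ≠ 0 by have := (hne x₁).1; rwa [hx₁, mul_zero, add_zero] at this)
    with hneg | hpos
  · -- negative field: reverse the time
    have p1 : ∀ x, 0 < -(β x + K * r' x) := sgn _ c1.neg (fun x => neg_ne_zero.2 (hne x).1)
      (by rw [hx₁, mul_zero, add_zero]; linarith)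
    have p2 : ∀ x, 0 < -(β x - K * r' x) := sgn _ c2.neg (fun x => neg_ne_zero.2 (hne x).2)
      (by rw [hx₁, mul_zero, sub_zero]; linarith)
    have hp : ∀ x s, -1 ≤ s → s ≤ 1 → 0 < -β x + K * r' x * s := by
      intro x s h1 h2
      have := p1 x
      have := p2 x
      rcases le_total 0 (K * r' x) with h | h <;> nlinarith
    obtain ⟨x, θ, y, T, hT, h1, h2⟩ := Core.main_pos (β := fun x => -β x) hr hr'c hwc hac hβc.neg
      rpos wpos rper r'per wper (fun x => by simp only [βper]) hp
    refine ⟨fun t => x (-t), fun t => θ (-t) + Real.pi, fun t => y (-t), T, hT, fun t => ?_,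
      fun t => ?_⟩
    · obtain ⟨e1, e2, e3⟩ := h1 (-t)
      have n := hasDerivAt_neg t
      simp only [Real.cos_add_pi, Real.sin_add_pi]
      refine ⟨(e1.comp t n).congr_deriv (by ring), (e2.comp t n).congr_deriv (by ring), ?_⟩
      have e4 : HasDerivAt (fun t => θ (-t)) _ t := e3.comp t n
      exact (e4.add_const Real.pi).congr_deriv (by ring)
    · obtain ⟨e1, e2, e3⟩ := h2 (-(t + T))
      have e0 : -(t + T) + T = -t := by ring
      rw [e0] at e1 e2 e3
      simp only [Real.cos_add_pi, Real.sin_add_pi]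
      refine ⟨e1.symm, e2.symm, ?_, ?_⟩
      · rw [e3, Real.cos_sub_two_pi]
      · rw [e3, Real.sin_sub_two_pi]
  · have p1 : ∀ x, 0 < β x + K * r' x := sgn _ c1 (fun x => (hne x).1)
      (by rw [hx₁, mul_zero, add_zero]; linarith)
    have p2 : ∀ x, 0 < β x - K * r' x := sgn _ c2 (fun x => (hne x).2)
      (by rw [hx₁, mul_zero, sub_zero]; linarith)
    have hp : ∀ x s, -1 ≤ s → s ≤ 1 → 0 < β x + K * r' x * s := by
      intro x s h1 h2
      have := p1 x
      have := p2 x
      rcases le_total 0 (K * r' x) with h | h <;> nlinarith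
    obtain ⟨x, θ, y, T, hT, h1, h2⟩ := Core.main_pos hr hr'c hwc hac hβc
      rpos wpos rper r'per wper βper hp
    refine ⟨x, θ, y, T, hT, h1, fun t => ?_⟩
    obtain ⟨e1, e2, e3⟩ := h2 t
    refine ⟨e1, e2, ?_, ?_⟩
    · rw [e3, Real.cos_sub_two_pi]
    · rw [e3, Real.sin_sub_two_pi]

/-- **Theorem.** For every smooth metric and every smooth 2-form (exact or not) on the torus that
are invariant under a circle action, every energy level `H = k`, `k > 0`, carries a closed
magnetic geodesic; more precisely, one of the orbits of the circle action is a closed magnetic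
geodesic on the level, or there is a contractible closed magnetic geodesic on the level. -/
theorem result (S : TorusSystem) (hS : S.CircleInvariant) (k : ℝ) (hk : 0 < k) :
    S.HasClosedOrbit k ∧ (S.HasCircleOrbit k ∨ S.HasContractibleOrbit k) := by
  set K := Real.sqrt k with hKdef
  have hK : 0 < K := Real.sqrt_pos.2 hk
  have hKk : K ^ 2 = k := Real.sq_sqrt hk.le
  -- reduced functions
  have inv : ∀ x y, S.E x y = S.E x 0 ∧ S.F x y = S.F x 0 ∧ S.G x y = S.G x 0 ∧
      S.b x y = S.b x 0 := fun x y => by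
    have := hS x 0 y
    rwa [zero_add] at this
  have pr : ContDiff ℝ ∞ (fun x : ℝ => ((x, 0) : ℝ × ℝ)) := contDiff_id.prodMk contDiff_const
  have sE : ContDiff ℝ ∞ (fun x => S.E x 0) := S.smoothE.comp pr
  have sF : ContDiff ℝ ∞ (fun x => S.F x 0) := S.smoothF.comp pr
  have sG : ContDiff ℝ ∞ (fun x => S.G x 0) := S.smoothG.comp pr
  have sb : ContDiff ℝ ∞ (fun x => S.b x 0) := S.smoothb.comp pr
  have posG : ∀ x, 0 < S.G x 0 := by
    intro x
    have h1 := S.posE x 0
    have h2 := S.posdet x 0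
    have h3 : 0 < S.E x 0 * S.G x 0 := by nlinarith [sq_nonneg (S.F x 0)]
    exact (pos_iff_pos_of_mul_pos h3).1 h1
  have posD : ∀ x, 0 < S.E x 0 * S.G x 0 - S.F x 0 ^ 2 := fun x => S.posdet x 0
  set r : ℝ → ℝ := fun x => Real.sqrt (S.G x 0) with hrdef
  set w : ℝ → ℝ := fun x => Real.sqrt (S.E x 0 * S.G x 0 - S.F x 0 ^ 2) with hwdef
  set a : ℝ → ℝ := fun x => S.F x 0 with hadef
  set β : ℝ → ℝ := fun x => S.b x 0 with hβdef
  have sr : ContDiff ℝ ∞ r := sG.sqrt fun x => (posG x).ne'
  have sw : ContDiff ℝ ∞ w := ((sE.mul sG).sub (sF.pow 2)).sqrt fun x => (posD x).ne'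
  have hr : ∀ x, HasDerivAt r (deriv r x) x := fun x =>
    (sr.differentiable (by simp)).differentiableAt.hasDerivAt
  have hw : ∀ x, HasDerivAt w (deriv w x) x := fun x =>
    (sw.differentiable (by simp)).differentiableAt.hasDerivAt
  have ha : ∀ x, HasDerivAt a (deriv a x) x := fun x =>
    (sF.differentiable (by simp)).differentiableAt.hasDerivAt
  have hr'c : Continuous (deriv r) := sr.continuous_deriv (by simp)
  have rpos : ∀ x, 0 < r x := fun x => Real.sqrt_pos.2 (posG x)
  have wpos : ∀ x, 0 < w x := fun x => Real.sqrt_pos.2 (posD x)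
  have rper : ∀ x, r (x + 1) = r x := fun x => by
    simp only [hrdef, (S.perx x 0).2.2.1]
  have wper : ∀ x, w (x + 1) = w x := fun x => by
    simp only [hwdef, (S.perx x 0).2.2.1, (S.perx x 0).1, (S.perx x 0).2.1]
  have βper : ∀ x, β (x + 1) = β x := fun x => (S.perx x 0).2.2.2
  have r'per : ∀ x, deriv r (x + 1) = deriv r x := fun x => by
    rw [← deriv_comp_add_const]
    congr 1
    funext z
    exact rper z
  have hb : ∀ x y, S.b x y = β x := fun x y => (inv x y).2.2.2
  have hH : ∀ x y p q, S.H x y p q =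
      (r x * p - a x * q / r x) ^ 2 / w x ^ 2 + q ^ 2 / r x ^ 2 := by
    intro x y p q
    obtain ⟨i1, i2, i3, -⟩ := inv x y
    have e1 : r x ^ 2 = S.G x 0 := Real.sq_sqrt (posG x).le
    have e2 : w x ^ 2 = S.E x 0 * S.G x 0 - S.F x 0 ^ 2 := Real.sq_sqrt (posD x).le
    have e3 := (rpos x).ne'
    have e4 := (posG x).ne'
    have e5 := (posD x).ne'
    have e6 : (r x * p - a x * q / r x) ^ 2 =
        (S.G x 0 * p - S.F x 0 * q) ^ 2 / S.G x 0 := by
      rw [← e1]
      simp only [hadef]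
      field_simp
    rw [e6, e2, e1]
    unfold TorusSystem.H
    rw [i1, i2, i3]
    generalize hD : S.E x 0 * S.G x 0 - S.F x 0 ^ 2 = D at e5 ⊢
    have e7 : S.E x 0 = (D + S.F x 0 ^ 2) / S.G x 0 := by
      rw [← hD]
      field_simp
      ring
    rw [e7]
    field_simp
    ring
  by_cases hcase : ∃ x, β x + K * deriv r x = 0 ∨ β x - K * deriv r x = 0
  · -- a closed orbit of the circle action
    obtain ⟨x₀, h⟩ := hcase
    obtain ⟨σ, hσ, hσ0⟩ : ∃ σ : ℝ, (σ = 1 ∨ σ = -1) ∧ β x₀ + K * deriv r x₀ * σ = 0 := by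
      rcases h with h | h
      · exact ⟨1, Or.inl rfl, by linarith⟩
      · exact ⟨-1, Or.inr rfl, by linarith⟩
    have hσ2 : σ ^ 2 = 1 := by rcases hσ with h | h <;> rw [h] <;> norm_num
    obtain ⟨θ₀, hc0, hs0⟩ : ∃ θ₀ : ℝ, Real.cos θ₀ = 0 ∧ Real.sin θ₀ = σ := by
      rcases hσ with h | h
      · exact ⟨Real.pi / 2, Real.cos_pi_div_two, by rw [Real.sin_pi_div_two, h]⟩
      · exact ⟨-(Real.pi / 2), by rw [Real.cos_neg, Real.cos_pi_div_two],
          by rw [Real.sin_neg, Real.sin_pi_div_two, h]⟩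
    have er := (rpos x₀).ne'
    have ew := (wpos x₀).ne'
    set v : ℝ := 2 * K * σ / r x₀ with hv
    have hode : ∀ t : ℝ,
        HasDerivAt (fun _ : ℝ => x₀) (2 * K * r x₀ * Real.cos θ₀ / w x₀) t ∧
        HasDerivAt (fun t : ℝ => v * t) (2 * K * Real.sin θ₀ / r x₀ -
          2 * K * a x₀ * Real.cos θ₀ / (r x₀ * w x₀)) t ∧
        HasDerivAt (fun _ : ℝ => θ₀) (-(2 / w x₀) *
          (β x₀ + K * deriv r x₀ * Real.sin θ₀)) t := by
      intro t
      rw [hc0, hs0, hσ0]
      refine ⟨?_, ?_, ?_⟩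
      · simpa using hasDerivAt_const t x₀
      · refine ((hasDerivAt_id t).const_mul v).congr_deriv ?_
        rw [hv]; ring
      · simpa using hasDerivAt_const t θ₀
    have htraj := isTrajectory_of_reduced S hr hw ha rpos wpos hH hb (K := K)
      (x := fun _ => x₀) (θ := fun _ => θ₀) (y := fun t => v * t) hode
    simp only [hc0, hs0] at htraj
    have hen : ∀ t, S.H x₀ (v * t) (K * (w x₀ * 0 + a x₀ * σ) / r x₀) (K * r x₀ * σ) = k := by
      intro t
      rw [hH, ← hKk]
      have : r x₀ * (K * (w x₀ * 0 + a x₀ * σ) / r x₀) - a x₀ * (K * r x₀ * σ) / r x₀ = 0 := by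
        field_simp
        ring
      rw [this]
      field_simp
      linear_combination (w x₀ ^ 2 * K ^ 2) * hσ2
    have hv0 : v ≠ 0 := by
      rw [hv]
      have : σ ≠ 0 := by intro h; rw [h] at hσ2; norm_num at hσ2
      positivity
    have hcirc : S.HasCircleOrbit k := ⟨x₀, v, _, _, hv0, htraj, hen⟩
    refine ⟨⟨_, _, _, _, htraj, hen, |v|⁻¹, by positivity, 0, if 0 < v then 1 else -1,
      fun t => ⟨by simp, ?_, rfl, rfl⟩⟩, Or.inl hcirc⟩
    split_ifs with h
    · rw [abs_of_pos h]
      push_cast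
      field_simp
    · have h' : v < 0 := lt_of_le_of_ne (not_lt.1 h) hv0
      rw [abs_of_neg h']
      push_cast
      field_simp
  · -- a contractible closed orbit
    push Not at hcase
    obtain ⟨x, θ, y, T, hT, hode, hper⟩ := exists_reduced hr hr'c sw.continuous sF.continuous
      sb.continuous rpos wpos rper r'per wper βper (K := K) (a := a) hcase
    have htraj := isTrajectory_of_reduced S hr hw ha rpos wpos hH hb (K := K) hode
    have hen : ∀ t, S.H (x t) (y t)
        (K * (w (x t) * Real.cos (θ t) + a (x t) * Real.sin (θ t)) / r (x t))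
        (K * r (x t) * Real.sin (θ t)) = k := by
      intro t
      rw [hH, ← hKk]
      have er := (rpos (x t)).ne'
      have ew := (wpos (x t)).ne'
      have : r (x t) * (K * (w (x t) * Real.cos (θ t) + a (x t) * Real.sin (θ t)) / r (x t)) -
          a (x t) * (K * r (x t) * Real.sin (θ t)) / r (x t) = K * w (x t) * Real.cos (θ t) := by
        field_simp
        ring
      rw [this]
      have := Real.sin_sq_add_cos_sq (θ t)
      field_simp
      linear_combination this
    have hp : ∀ t, x (t + T) = x t ∧ y (t + T) = y t ∧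
        (K * (w (x (t + T)) * Real.cos (θ (t + T)) + a (x (t + T)) * Real.sin (θ (t + T))) /
          r (x (t + T))) =
        (K * (w (x t) * Real.cos (θ t) + a (x t) * Real.sin (θ t)) / r (x t)) ∧
        K * r (x (t + T)) * Real.sin (θ (t + T)) = K * r (x t) * Real.sin (θ t) := by
      intro t
      obtain ⟨h1, h2, h3, h4⟩ := hper t
      rw [h1, h2, h3, h4]
      exact ⟨rfl, rfl, rfl, rfl⟩
    refine ⟨⟨x, y, _, _, htraj, hen, T, hT, 0, 0, fun t => ?_⟩,
      Or.inr ⟨x, y, _, _, htraj, hen, T, hT, hp⟩⟩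
    obtain ⟨h1, h2, h3, h4⟩ := hp t
    exact ⟨by rw [h1]; simp, by rw [h2]; simp, h3, h4⟩

end Pool.Agent.Results.MP_4c42bd_gt.CircleSymmetricTorus
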