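import Pool.Agent.Lib.MP_4c42bd_gt.Mir.Tor

/-!
# Closed magnetic geodesics on tori with two reflections
-/

namespace Pool.Agent.Results.MP_4c42bd_gt.MirrorSymmetricTorus

open MP4c42bd

/-- The coordinates are orthogonal and the reflections `(x, y) ↦ (-x, y)` and
`(x, y) ↦ (x, -y)` preserve the coefficients `E`, `G` of the metric and the density `b`. -/
structure MirrorSymmetric (S : TorusSystem) : Prop where
  orthogonal : ∀ x y, S.F x y = 0
  evenx : ∀ x y, S.E (-x) y = S.E x y ∧ S.G (-x) y = S.G x y ∧ S.b (-x) y = S.b x y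
  eveny : ∀ x y, S.E x (-y) = S.E x y ∧ S.G x (-y) = S.G x y ∧ S.b x (-y) = S.b x y

/-- The energy level `H = k` carries a closed magnetic geodesic of the class `(m, n)`: a complete
trajectory on the level which after some time `T > 0` is translated by the vector `(m, n)`, with the
same momenta. -/
def HasOrbitOfClass (S : TorusSystem) (k : ℝ) (m n : ℤ) : Prop :=
  ∃ x y p q : ℝ → ℝ, S.IsTrajectory x y p q ∧ (∀ t, S.H (x t) (y t) (p t) (q t) = k) ∧
    ∃ T > 0, ∀ t, x (t + T) = x t + m ∧ y (t + T) = y t + n ∧ p (t + T) = p t ∧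
      q (t + T) = q t

/-- **Theorem.** Let the metric `E dx² + G dy²` and the nowhere vanishing 2-form `b dx ∧ dy` on the
torus be even in `x` and even in `y`, and `k > 0`. If the circles `y = const` are less curved than
the magnetic geodesics of energy `k` (no condition if they are geodesics), then the level `H = k`
carries a closed magnetic geodesic which is contractible or of the class `(0, 1)` or `(0, -1)`.
The same holds with exchanged coordinates. -/
theorem result (S : TorusSystem) (hS : MirrorSymmetric S) (hb : ∀ x y, S.b x y ≠ 0)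
    (k : ℝ) (hk : 0 < k) :
    ((∀ x y, k * (deriv (fun u => S.E x u) y) ^ 2 < 4 * S.E x y * S.b x y ^ 2) →
      ∃ n : ℤ, |n| ≤ 1 ∧ HasOrbitOfClass S k 0 n) ∧
    ((∀ x y, k * (deriv (fun u => S.G u y) x) ^ 2 < 4 * S.G x y * S.b x y ^ 2) →
      ∃ m : ℤ, |m| ≤ 1 ∧ HasOrbitOfClass S k m 0) :=
  ⟨fun h => Mir.main_y S k hk hS.orthogonal hS.evenx hS.eveny hb h,
    fun h => Mir.main_x S k hk hS.orthogonal hS.evenx hS.eveny hb h⟩

end Pool.Agent.Results.MP_4c42bd_gt.MirrorSymmetricTorus
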